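import Mathlib
import Pool.Agent.Q122.DMod.Defs
import Pool.Agent.Q122.DMod.Comb
import Pool.Agent.Q122.DMod.Ex

/-! # MP_12ebf5_al, Q1: a holonomic module of multiplicity `9/5` -/

set_option autoImplicit false

namespace Pool.Agent.Results.MP_12ebf5_al.Multiplicity

open Filter Pool.Agent.Q122.DMod

/-- Statement Q1: for every prime `p`, field `k` of characteristic `p`, `n ≥ 1`, every holonomic
module `M` and finite generating set `S` of `M`, the number `n! e(M)` is an integer, where
`e(M) = limsup dim (F_i span S) / i ^ n`. -/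
def IntegralMultiplicity : Prop :=
  ∀ (p : ℕ), p.Prime → ∀ (k : Type) [Field k] [CharP k p] (n : ℕ), 1 ≤ n →
    ∀ (M : Type) [AddCommGroup M] [Module (DRing k n) M] [Module k M]
      [IsScalarTower k (DRing k n) M], IsHolonomic k n M →
      ∀ S : Finset M, Submodule.span (DRing k n) (S : Set M) = ⊤ →
        ∃ z : ℤ, (n.factorial : ℝ) *
          limsup (fun i : ℕ => (hilb k n M S i : ℝ) / (i : ℝ) ^ n) atTop = z

theorem result :
    (∃ (M : Type) (_ : AddCommGroup M) (_ : Module (DRing (ZMod 2) 1) M) (_ : Module (ZMod 2) M)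
      (_ : IsScalarTower (ZMod 2) (DRing (ZMod 2) 1) M) (w : M),
      IsHolonomic (ZMod 2) 1 M ∧
      Submodule.span (DRing (ZMod 2) 1) ((({w} : Finset M)) : Set M) = ⊤ ∧
      limsup (fun i : ℕ => (hilb (ZMod 2) 1 M {w} i : ℝ) / (i : ℝ) ^ 1) atTop = 9 / 5) ∧
    ¬ IntegralMultiplicity := by
  refine ⟨⟨M2, inferInstance, inferInstance, inferInstance, inferInstance, w, M2_holonomic, span_w,
    limsup_eq⟩, ?_⟩
  intro h
  obtain ⟨z, hz⟩ := h 2 Nat.prime_two (ZMod 2) 1 le_rfl M2 M2_holonomic {w} span_w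
  rw [limsup_eq, Nat.factorial_one, Nat.cast_one, one_mul] at hz
  have h1 : (9 : ℝ) = ((5 * z : ℤ) : ℝ) := by
    push_cast
    rw [← hz]
    norm_num
  have h2 : (9 : ℤ) = 5 * z := by exact_mod_cast h1
  omega

end Pool.Agent.Results.MP_12ebf5_al.Multiplicity
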