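import Mathlib
import Pool.Agent.Q122.DMod.Defs
import Pool.Agent.Q122.DMod.Comb
import Pool.Agent.Q122.DMod.Ex

/-! # MP_12ebf5_al, Q2: a holonomic module for which `dim M_i / i ^ n` has no limit -/

set_option autoImplicit false

namespace Pool.Agent.Results.MP_12ebf5_al.NoLimit

open Filter Pool.Agent.Q122.DMod

/-- Statement Q2: for every prime `p`, field `k` of characteristic `p`, `n ≥ 1`, every holonomic
module `M` and finite generating set `S` of `M`, the limit of `dim (F_i span S) / i ^ n` exists. -/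
def LimitExists : Prop :=
  ∀ (p : ℕ), p.Prime → ∀ (k : Type) [Field k] [CharP k p] (n : ℕ), 1 ≤ n →
    ∀ (M : Type) [AddCommGroup M] [Module (DRing k n) M] [Module k M]
      [IsScalarTower k (DRing k n) M], IsHolonomic k n M →
      ∀ S : Finset M, Submodule.span (DRing k n) (S : Set M) = ⊤ →
        ∃ L : ℝ, Tendsto (fun i : ℕ => (hilb k n M S i : ℝ) / (i : ℝ) ^ n) atTop (nhds L)

theorem result :
    (∃ (M : Type) (_ : AddCommGroup M) (_ : Module (DRing (ZMod 2) 1) M) (_ : Module (ZMod 2) M)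
      (_ : IsScalarTower (ZMod 2) (DRing (ZMod 2) 1) M) (w : M),
      IsHolonomic (ZMod 2) 1 M ∧
      Submodule.span (DRing (ZMod 2) 1) ((({w} : Finset M)) : Set M) = ⊤ ∧
      (∃ᶠ i : ℕ in atTop, 9 / 5 ≤ (hilb (ZMod 2) 1 M {w} i : ℝ) / (i : ℝ) ^ 1) ∧
      (∃ᶠ i : ℕ in atTop, (hilb (ZMod 2) 1 M {w} i : ℝ) / (i : ℝ) ^ 1 ≤ 3 / 2)) ∧
    ¬ LimitExists := by
  refine ⟨⟨M2, inferInstance, inferInstance, inferInstance, inferInstance, w, M2_holonomic, span_w,
    ?_, ?_⟩, ?_⟩
  · exact tendsto_five.frequently (Frequently.of_forall five_real)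
  · refine tendsto_three.frequently (Eventually.frequently ?_)
    filter_upwards [eventually_ge_atTop 2] with m hm using three_real m hm
  · intro h
    obtain ⟨L, hL⟩ := h 2 Nat.prime_two (ZMod 2) 1 le_rfl M2 M2_holonomic {w} span_w
    exact not_tendsto L hL

end Pool.Agent.Results.MP_12ebf5_al.NoLimit
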